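import Pool.Agent.Q23.CH.Skew

/-!
# The determinant of `x + (j-k/p)` of order `(p-1)/2`, `p = 3 mod 4`

The skew-symmetric Toeplitz matrix `T` of order `(p+1)/2` has determinant one; the determinant is
`x` times the square of the sum of the first column of the inverse of `T`.  This sum is computed from
the polynomial with the roots `(k/p) exp (2 π i k / p)`.
-/

set_option autoImplicit false

namespace Pool.Agent.Results.MP_d17a30_nt.HalfOrder

/-- The determinant of the matrix with the entries `x + ((j-k)/p)`, `1 ≤ j, k ≤ (p - 1) / 2`, where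
`x` is an element of a commutative ring. -/
def M (p : ℕ) [Fact p.Prime] {R : Type*} [CommRing R] (x : R) : R :=
  Matrix.det (Matrix.of fun j k : Fin ((p - 1) / 2) =>
    x + (legendreSym p ((((j : ℕ) : ℤ) + 1) - (((k : ℕ) : ℤ) + 1)) : R))

/-- **Main result.**  The determinant is `x` for all primes `p = 3 mod 4`. -/
theorem result : ∀ (p : ℕ) [Fact p.Prime], p % 4 = 3 →
    ∀ {R : Type*} [CommRing R] (x : R), M p x = x := by
  intro p _ h3 R _ x
  obtain ⟨m, hm⟩ : ∃ m, p = 2 * m + 1 := ⟨p / 2, by omega⟩
  have hn : (p - 1) / 2 = m := by omega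
  have h := Pool.Agent.Q23.CH.half h3 hm x
  rw [M, hn]
  refine Eq.trans ?_ h
  congr 1
  ext j k
  rw [Matrix.of_apply, Pool.Agent.Q23.CH.TX, Matrix.of_apply]
  simp only [legendreSym]
  push_cast
  rw [add_sub_add_right_eq_sub]

end Pool.Agent.Results.MP_d17a30_nt.HalfOrder
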